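import Mathlib
import Pool.Agent.LibMPd06cab.Defs
import Pool.Agent.LibMPd06cab.Main

open Pool.Agent.LibMPd06cab

namespace Pool.Agent.Results.MP_d06cab_co.GraphDetermines

/-- **Theorem.** For every `d ≥ 3`, two `d`-arrangements of hyperplanes in real projective
`d`-space whose cell-adjacency graphs are isomorphic are combinatorially equivalent. -/
theorem result (d : ℕ) (hd : 3 ≤ d) (A B : Arrangement d)
    (h : Nonempty (cellGraph A ≃g cellGraph B)) : Equivalent A B :=
  equivalent_of_iso hd A B h

end Pool.Agent.Results.MP_d06cab_co.GraphDetermines
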